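import Pool.Agent.TH188.ET.Conv
import Pool.Agent.Results.MP_d26ff6_al.OrderEightSymbols

/-!
# Relations between symbols of a quaternionic structure (helper327)

For a quaternionic structure `S` let `K S` be the quotient of `G ⊗ G` by the `a ⊗ b` with
`q(a,b) = 0`. For a finite structure, all relations between the symbols come from common slots if and
only if symbols on subgroups extend.
-/

set_option autoImplicit false

namespace Pool.Agent.Q327.ET

open scoped TensorProduct
open Pool.Agent.H315R3.ETC Pool.Agent.TH188.ET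
open Pool.Agent.Results.MP_d26ff6_al.SymbolExtension

/-- the relations `a ⊗ b`, `q(a,b) = 0` -/
def relSub (S : QData) : AddSubgroup (Additive S.G ⊗[ℤ] Additive S.G) :=
  AddSubgroup.closure {t | ∃ a b : S.G, S.q a b = S.zero ∧
    t = Additive.ofMul a ⊗ₜ[ℤ] Additive.ofMul b}

/-- the group `k_2(S)`: the quotient of `G ⊗ G` by the `a ⊗ b` with `q(a,b) = 0` -/
abbrev K (S : QData) : Type := (Additive S.G ⊗[ℤ] Additive S.G) ⧸ relSub S

/-- the symbol `{a,b}` in `k_2(S)` -/
def sym (S : QData) (a b : S.G) : K S :=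
  QuotientAddGroup.mk (Additive.ofMul a ⊗ₜ[ℤ] Additive.ofMul b)

/-- every relation `∑ {a_i,b_i} = 0` in `k_2(S)` comes from common slots: there are `c_I`, one for
each set `I` of indices, with `q(∏_{i ∈ I} a_i, c_I) = 0`, such that `b_i` is the product of the `c_I`
with `i ∈ I` -/
def RelationsFromSlots (S : QData) : Prop :=
  ∀ (n : ℕ) (a b : Fin n → S.G), ∑ i, sym S (a i) (b i) = 0 →
    ∃ c : Finset (Fin n) → S.G, (∀ I, S.q (∏ i ∈ I, a i) (c I) = S.zero) ∧
      ∀ i, b i = ∏ I with i ∈ I, c I

/-- if `{x,y}` is a sum of `n` symbols `{a_i,b_i}`, then `y` is a product of elements `c_I` with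
`q(x ∏_{i ∈ I} a_i, c_I) = 0` -/
def SlotsAt (S : QData) (n : ℕ) : Prop :=
  ∀ (a b : Fin n → S.G) (x y : S.G), sym S x y = ∑ i, sym S (a i) (b i) →
    ∃ c : Finset (Fin n) → S.G, (∀ I, S.q (x * ∏ i ∈ I, a i) (c I) = S.zero) ∧ y = ∏ I, c I

section basic
variable {S : QData}

theorem sym_mul_left (a b c : S.G) : sym S (a * b) c = sym S a c + sym S b c := by
  unfold sym
  rw [ofMul_mul, TensorProduct.add_tmul, QuotientAddGroup.mk_add]

theorem sym_mul_right (a b c : S.G) : sym S a (b * c) = sym S a b + sym S a c := by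
  unfold sym
  rw [ofMul_mul, TensorProduct.tmul_add, QuotientAddGroup.mk_add]

theorem sym_one_left (a : S.G) : sym S 1 a = 0 := by
  unfold sym
  rw [ofMul_one, TensorProduct.zero_tmul, QuotientAddGroup.mk_zero]

theorem sym_one_right (a : S.G) : sym S a 1 = 0 := by
  unfold sym
  rw [ofMul_one, TensorProduct.tmul_zero, QuotientAddGroup.mk_zero]

theorem sym_zero {a b : S.G} (h : S.q a b = S.zero) : sym S a b = 0 := by
  unfold sym
  rw [QuotientAddGroup.eq_zero_iff]
  exact AddSubgroup.subset_closure ⟨a, b, h, rfl⟩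

theorem K_add_self (h : IsQuat S) (t : K S) : t + t = 0 := by
  obtain ⟨s, rfl⟩ := QuotientAddGroup.mk_surjective t
  rw [← QuotientAddGroup.mk_add]
  have h1 : s + s = 0 := by
    induction s using TensorProduct.induction_on with
    | zero => simp
    | tmul x y =>
      rw [← TensorProduct.add_tmul]
      have : x + x = 0 := h.exp2 x.toMul
      rw [this, TensorProduct.zero_tmul]
    | add x y hx hy =>
      have : x + y + (x + y) = (x + x) + (y + y) := by abel
      rw [this, hx, hy, add_zero]
  rw [h1, QuotientAddGroup.mk_zero]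

theorem sym_prod_left {ι : Type*} (s : Finset ι) (a : ι → S.G) (c : S.G) :
    sym S (∏ i ∈ s, a i) c = ∑ i ∈ s, sym S (a i) c := by
  classical
  induction s using Finset.induction_on with
  | empty => simp [sym_one_left]
  | insert i s hi ih => rw [Finset.prod_insert hi, Finset.sum_insert hi, sym_mul_left, ih]

/-- additive maps out of `k_2(S)` -/
theorem exists_hom (B : S.G → S.G → ZMod 2) (hl : ∀ a b c, B (a * b) c = B a c + B b c)
    (hr : ∀ a b c, B a (b * c) = B a b + B a c)
    (h0 : ∀ a c, S.q a c = S.zero → B a c = 0) :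
    ∃ f : K S →+ ZMod 2, ∀ a b, f (sym S a b) = B a b := by
  let B' : Additive S.G →+ Additive S.G →+ ZMod 2 :=
    AddMonoidHom.mk' (fun a => AddMonoidHom.mk' (fun b => B a.toMul b.toMul)
      (fun b c => hr _ _ _)) (fun a b => by
        ext c
        exact hl _ _ _)
  let g : Additive S.G ⊗[ℤ] Additive S.G →+ ZMod 2 :=
    TensorProduct.liftAddHom B' (fun r m n => by
      rw [map_zsmul, AddMonoidHom.smul_apply, map_zsmul])
  have hg : ∀ a b : S.G, g (Additive.ofMul a ⊗ₜ[ℤ] Additive.ofMul b) = B a b := by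
    intro a b
    rfl
  have hker : relSub S ≤ g.ker := by
    unfold relSub
    rw [AddSubgroup.closure_le]
    rintro t ⟨a, b, hab, rfl⟩
    rw [SetLike.mem_coe, AddMonoidHom.mem_ker, hg]
    exact h0 a b hab
  exact ⟨QuotientAddGroup.lift _ g hker, fun a b => hg a b⟩

end basic

theorem slots_of_relations {S : QData} (hS : IsQuat S) (h : RelationsFromSlots S) (n : ℕ) :
    SlotsAt S n := by
  classical
  intro a b x y hxy
  obtain ⟨c, hc, hs⟩ := h (n + 1) (Fin.cons x a) (Fin.cons y b) (by
    rw [Fin.sum_univ_succ]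
    simp only [Fin.cons_zero, Fin.cons_succ]
    rw [hxy]
    exact K_add_self hS _)
  let em : Finset (Fin n) → Finset (Fin (n + 1)) := fun I =>
    insert 0 (I.map (Fin.succEmb n))
  have hem0 : ∀ I : Finset (Fin n), (0 : Fin (n + 1)) ∉ I.map (Fin.succEmb n) := by
    intro I hI
    obtain ⟨j, -, hj⟩ := Finset.mem_map.mp hI
    exact Fin.succ_ne_zero j hj
  refine ⟨fun I => c (em I), ?_, ?_⟩
  · intro I
    have := hc (em I)
    rw [Finset.prod_insert (hem0 I), Finset.prod_map] at this
    simpa using this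
  · have hs := hs 0
    rw [Fin.cons_zero] at hs
    rw [hs]
    symm
    refine Finset.prod_bij (fun I _ => em I) ?_ ?_ ?_ ?_
    · intro I _
      simp [em]
    · intro I _ J _ hIJ
      have : (em I).erase 0 = (em J).erase 0 := by rw [hIJ]
      simp only [em] at this
      rw [Finset.erase_insert (hem0 I), Finset.erase_insert (hem0 J)] at this
      exact Finset.map_injective _ this
    · intro J hJ
      have h0 : (0 : Fin (n + 1)) ∈ J := by simpa using hJ
      refine ⟨Finset.univ.filter (fun j => Fin.succ j ∈ J), Finset.mem_univ _, ?_⟩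
      ext k
      simp only [em, Finset.mem_insert, Finset.mem_map, Finset.mem_filter, Finset.mem_univ,
        true_and, Fin.coe_succEmb]
      constructor
      · rintro (rfl | ⟨j, hj, rfl⟩)
        · exact h0
        · exact hj
      · intro hk
        rcases Fin.eq_zero_or_eq_succ k with rfl | ⟨j, rfl⟩
        · exact Or.inl rfl
        · exact Or.inr ⟨j, hk, rfl⟩
    · intro I _
      rfl

theorem relations_of_extend {S : QData} (hS : IsQuat S) (h : SymbolsExtend S) :
    RelationsFromSlots S := by
  classical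
  intro n a b hab
  by_contra hcon
  have q1 : ∀ x, S.q x 1 = S.zero := by
    intro x
    have := (hS.qs3 x 1 1).1 rfl
    rwa [mul_one] at this
  have qmul : ∀ x y z, S.q x y = S.zero → S.q x z = S.zero → S.q x (y * z) = S.zero := by
    intro x y z h1 h2
    exact (hS.qs3 x y z).1 (h1.trans h2.symm)
  have q1l : ∀ x, S.q 1 x = S.zero := fun x => by rw [hS.qs2]; exact q1 x
  have hinv : ∀ x : S.G, x⁻¹ = x := fun x => inv_eq_of_mul_eq_one_left (hS.exp2 x)
  -- the subgroup of relations from slots
  let M : AddSubgroup (Fin n → Additive S.G) :=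
    { carrier := {β | ∃ c : Finset (Fin n) → S.G, (∀ I, S.q (∏ i ∈ I, a i) (c I) = S.zero) ∧
        ∀ i, (β i).toMul = ∏ I with i ∈ I, c I}
      zero_mem' := by
        refine ⟨fun _ => 1, fun I => q1 _, fun i => ?_⟩
        simp
      add_mem' := by
        rintro β β' ⟨c, hc, hb⟩ ⟨c', hc', hb'⟩
        refine ⟨fun I => c I * c' I, fun I => qmul _ _ _ (hc I) (hc' I), fun i => ?_⟩
        simp only [Pi.add_apply, toMul_add]
        rw [hb i, hb' i, Finset.prod_mul_distrib]
      neg_mem' := by
        rintro β ⟨c, hc, hb⟩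
        refine ⟨c, hc, fun i => ?_⟩
        simp only [Pi.neg_apply, toMul_neg]
        rw [hb i, hinv] }
  have hMmem : ∀ β : Fin n → Additive S.G, β ∈ M ↔
      ∃ c : Finset (Fin n) → S.G, (∀ I, S.q (∏ i ∈ I, a i) (c I) = S.zero) ∧
        ∀ i, (β i).toMul = ∏ I with i ∈ I, c I := fun β => Iff.rfl
  obtain ⟨f, hfM, hfb⟩ := exists_char M (by
    intro β
    have : β + β = 0 := by
      funext i
      exact hS.exp2 (β i).toMul
    rw [this]
    exact M.zero_mem)
    (fun i => Additive.ofMul (b i)) (by
      rw [hMmem]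
      exact hcon)
  -- components
  let fi : Fin n → S.G → ZMod 2 := fun i x => f (Pi.single i (Additive.ofMul x))
  have hfi_mul : ∀ i x y, fi i (x * y) = fi i x + fi i y := by
    intro i x y
    show f _ = f _ + f _
    rw [← map_add, ← Pi.single_add]
    rfl
  have hfi_sum : ∀ β : Fin n → S.G, f (fun i => Additive.ofMul (β i)) = ∑ i, fi i (β i) := by
    intro β
    have : (fun i => Additive.ofMul (β i)) =
        ∑ i, (Pi.single i (Additive.ofMul (β i)) : Fin n → Additive S.G) := by
      rw [Finset.univ_sum_single (fun i => Additive.ofMul (β i))]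
    rw [this, map_sum]
  have hfi_one : ∀ i, fi i 1 = 0 := by
    intro i
    show f _ = 0
    rw [ofMul_one, Pi.single_zero, map_zero]
  -- key vanishing
  have key : ∀ (I : Finset (Fin n)) (c : S.G), S.q (∏ i ∈ I, a i) c = S.zero →
      ∑ i ∈ I, fi i c = 0 := by
    intro I c hc
    have h1 : (fun i => if i ∈ I then Additive.ofMul c else 0 : Fin n → Additive S.G) ∈ M := by
      rw [hMmem]
      refine ⟨fun J => if J = I then c else 1, ?_, ?_⟩
      · intro J
        by_cases hJ : J = I
        · simp only [hJ, if_true]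
          exact hc
        · simp only [if_neg hJ]
          exact q1 _
      · intro i
        rw [Finset.prod_ite_eq']
        simp only [Finset.mem_filter, Finset.mem_univ, true_and]
        split_ifs <;> rfl
    have h3 := hfM _ h1
    have h4 : (fun i => if i ∈ I then Additive.ofMul c else 0 : Fin n → Additive S.G) =
        fun i => Additive.ofMul (if i ∈ I then c else 1) := by
      funext i
      split_ifs <;> rfl
    rw [h4, hfi_sum] at h3
    rw [← h3, ← Finset.sum_subset (Finset.subset_univ I)]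
    · apply Finset.sum_congr rfl
      intro i hi
      rw [if_pos hi]
    · intro i _ hi
      rw [if_neg hi, hfi_one]
  -- the vector space `V`
  let _ : Module (ZMod 2) (Additive S.G) := AddCommGroup.zmodModule (n := 2) (by
    intro x
    rw [two_nsmul]
    exact hS.exp2 x.toMul)
  -- functionals on `V`
  let g : Fin n → (Additive S.G →ₗ[ZMod 2] ZMod 2) := fun i =>
    AddMonoidHom.toZModLinearMap 2 (AddMonoidHom.mk' (fun v => fi i v.toMul) (fun v w =>
      hfi_mul i _ _))
  have hg : ∀ i x, g i (Additive.ofMul x) = fi i x := fun i x => rfl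
  let T : (Fin n → ZMod 2) →ₗ[ZMod 2] Additive S.G :=
    Fintype.linearCombination (ZMod 2) (fun i => Additive.ofMul (a i))
  let Gm : (Fin n → ZMod 2) →ₗ[ZMod 2] (Additive S.G →ₗ[ZMod 2] ZMod 2) :=
    Fintype.linearCombination (ZMod 2) g
  have hsum : ∀ {Y : Type _} [AddCommGroup Y] [Module (ZMod 2) Y] (v : Fin n → Y)
      (ε : Fin n → ZMod 2), Fintype.linearCombination (ZMod 2) v ε =
        ∑ i with ε i = 1, v i := by
    intro Y _ _ v ε
    rw [Fintype.linearCombination_apply, Finset.sum_filter]
    apply Finset.sum_congr rfl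
    intro i _
    have : ∀ z : ZMod 2, z = 0 ∨ z = 1 := by decide
    rcases this (ε i) with h | h
    · rw [h, zero_smul, if_neg (by decide)]
    · rw [h, one_smul, if_pos rfl]
  have hT : ∀ ε, T ε = Additive.ofMul (∏ i with ε i = 1, a i) := by
    intro ε
    show Fintype.linearCombination (ZMod 2) _ ε = _
    rw [hsum, ofMul_prod]
  have hG : ∀ ε x, Gm ε (Additive.ofMul x) = ∑ i with ε i = 1, fi i x := by
    intro ε x
    have : Gm ε = ∑ i with ε i = 1, g i := by
      show Fintype.linearCombination (ZMod 2) _ ε = _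
      rw [Fintype.linearCombination_apply, Finset.sum_filter]
      apply Finset.sum_congr rfl
      intro i _
      have : ∀ z : ZMod 2, z = 0 ∨ z = 1 := by decide
      rcases this (ε i) with h | h
      · rw [h, zero_smul, if_neg (by decide)]
      · rw [h, one_smul, if_pos rfl]
    rw [this, LinearMap.sum_apply]
    exact Finset.sum_congr rfl fun i _ => hg i x
  have hvan : ∀ ε x, S.q (∏ i with ε i = 1, a i) x = S.zero → Gm ε (Additive.ofMul x) = 0 := by
    intro ε x hx
    rw [hG]
    exact key _ _ hx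
  obtain ⟨L, hL⟩ := exists_lin T Gm (by
    intro ε hε
    rw [hT] at hε
    have h1 : (∏ i with ε i = 1, a i) = 1 := hε
    ext v
    rw [LinearMap.zero_apply]
    exact hvan ε v.toMul (by rw [h1]; exact q1l _))
  -- the symbol
  let W : Subgroup S.G :=
    { carrier := {w | ∃ ε, T ε = Additive.ofMul w}
      one_mem' := ⟨0, by rw [map_zero]; rfl⟩
      mul_mem' := by
        rintro v w ⟨ε, h1⟩ ⟨δ, h3⟩
        exact ⟨ε + δ, by rw [map_add, h1, h3]; rfl⟩
      inv_mem' := by
        rintro v ⟨ε, h1⟩
        exact ⟨-ε, by rw [map_neg, h1]; rfl⟩ }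
  let χ : S.G → S.G → ZMod 2 := fun x y => L (Additive.ofMul x) (Additive.ofMul y)
  have hχ : IsSymbol S W χ := by
    refine ⟨?_, ?_, ?_⟩
    · intro x _ y _ z
      show L (Additive.ofMul (x * y)) _ = L _ _ + L _ _
      rw [ofMul_mul, map_add, LinearMap.add_apply]
    · intro x _ y z
      show L _ (Additive.ofMul (y * z)) = L _ _ + L _ _
      rw [ofMul_mul, map_add]
    · rintro x ⟨ε, hε⟩ y hxy
      show L (Additive.ofMul x) (Additive.ofMul y) = 0
      rw [← hε, hL]
      rw [hT] at hε
      have h1 : (∏ i with ε i = 1, a i) = x := hε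
      rw [← h1] at hxy
      exact hvan ε y hxy
  obtain ⟨χ', ⟨hl, hrr, h00⟩, hagree⟩ := h W χ hχ
  obtain ⟨k, hkk⟩ := exists_hom (S := S) χ' (fun x y z => hl x trivial y trivial z)
    (fun x y z => hrr x trivial y z) (fun x y hxy => h00 x trivial y hxy)
  have h1 := congrArg k hab
  rw [map_zero, map_sum] at h1
  apply hfb
  rw [hfi_sum, ← h1]
  apply Finset.sum_congr rfl
  intro i _
  rw [hkk]
  have hTi : T (Pi.single i 1) = Additive.ofMul (a i) := by
    show Fintype.linearCombination (ZMod 2) _ _ = _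
    rw [Fintype.linearCombination_apply_single, one_smul]
  have hGi : Gm (Pi.single i 1) = g i := by
    show Fintype.linearCombination (ZMod 2) _ _ = _
    rw [Fintype.linearCombination_apply_single, one_smul]
  rw [hagree _ ⟨Pi.single i 1, hTi⟩]
  show _ = L (Additive.ofMul (a i)) (Additive.ofMul (b i))
  rw [← hTi, hL, hGi, hg]

/-- extension of a product symbol from the property of slots for generators `a` of `W ∩ ker l` -/
theorem extend_core {S : QData} (hS : IsQuat S) (W : Subgroup S.G) (l f : S.G → ZMod 2)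
    (hl : ∀ a b, l (a * b) = l a + l b) (hf : ∀ a b, f (a * b) = f a + f b)
    (hχ0 : ∀ w ∈ W, ∀ b, S.q w b = S.zero → l w * f b = 0) {w0 : S.G} (hw0 : w0 ∈ W)
    (hlw1 : l w0 = 1) (n : ℕ) (hsl : SlotsAt S n) (a : Fin n → S.G)
    (ha : ∀ i, a i ∈ W ∧ l (a i) = 0)
    (hgen : ∀ w ∈ W, l w = 0 → ∃ I : Finset (Fin n), w = ∏ i ∈ I, a i) :
    ∃ χ' : S.G → S.G → ZMod 2, IsSymbol S ⊤ χ' ∧ ∀ w ∈ W, ∀ b, χ' w b = l w * f b := by
  classical
  have hl1 : l 1 = 0 := by
    have := hl 1 1
    rw [one_mul] at this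
    exact left_eq_add.mp this
  have hf1 : f 1 = 0 := by
    have := hf 1 1
    rw [one_mul] at this
    exact left_eq_add.mp this
  -- the maps
  let Φ : Additive S.G × (Fin n → Additive S.G) →+ K S :=
    AddMonoidHom.mk' (fun z => sym S w0 z.1.toMul + ∑ i, sym S (a i) (z.2 i).toMul) (by
      intro z z'
      simp only [Prod.fst_add, Prod.snd_add, Pi.add_apply, toMul_add, sym_mul_right,
        Finset.sum_add_distrib]
      abel)
  let Λ : Additive S.G × (Fin n → Additive S.G) →+ ZMod 2 :=
    AddMonoidHom.mk' (fun z => f z.1.toMul) (by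
      intro z z'
      simp only [Prod.fst_add, toMul_add, hf])
  have hfprod : ∀ (s : Finset (Finset (Fin n))) (c : Finset (Fin n) → S.G),
      (∀ I ∈ s, f (c I) = 0) → f (∏ I ∈ s, c I) = 0 := by
    intro s c
    induction s using Finset.induction_on with
    | empty => intro _; simp [hf1]
    | insert i s hi ih =>
      intro h
      rw [Finset.prod_insert hi, hf, h i (Finset.mem_insert_self _ _),
        ih (fun j hj => h j (Finset.mem_insert_of_mem hj)), add_zero]
  have hprodW : ∀ I : Finset (Fin n), (∏ i ∈ I, a i) ∈ W ∧ l (∏ i ∈ I, a i) = 0 := by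
    intro I
    induction I using Finset.induction_on with
    | empty => simp [hl1, W.one_mem]
    | insert i s hi ih =>
      rw [Finset.prod_insert hi]
      refine ⟨W.mul_mem (ha i).1 ih.1, ?_⟩
      rw [hl, (ha i).2, ih.2, add_zero]
  have hker : ∀ z, Φ z = 0 → Λ z = 0 := by
    rintro ⟨y, β⟩ hz0
    have h1 : sym S w0 y.toMul = ∑ i, sym S (a i) (β i).toMul := by
      have h1 : sym S w0 y.toMul + ∑ i, sym S (a i) (β i).toMul = 0 := hz0
      have h3 := K_add_self hS (∑ i, sym S (a i) (β i).toMul)
      rw [← h3] at h1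
      exact add_right_cancel h1
    obtain ⟨c, hc, hy⟩ := hsl a (fun i => (β i).toMul) w0 y.toMul h1
    show f y.toMul = 0
    rw [hy]
    apply hfprod
    intro I _
    have h4 : w0 * ∏ i ∈ I, a i ∈ W := W.mul_mem hw0 (hprodW I).1
    have h5 := hχ0 _ h4 _ (hc I)
    have h6 : l (w0 * ∏ i ∈ I, a i) = 1 := by
      rw [hl, hlw1, (hprodW I).2, add_zero]
    rw [h6, one_mul] at h5
    exact h5
  obtain ⟨k, hkk⟩ := exists_factor (K_add_self hS) Φ Λ hker
  have hk1 : ∀ y : S.G, k (sym S w0 y) = f y := by
    intro y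
    have := hkk (Additive.ofMul y, 0)
    have h1 : Φ (Additive.ofMul y, 0) = sym S w0 y := by
      show sym S w0 y + ∑ i, sym S (a i) ((0 : Fin n → Additive S.G) i).toMul = sym S w0 y
      simp [sym_one_right]
    rw [h1] at this
    exact this
  have hk2 : ∀ i (y : S.G), k (sym S (a i) y) = 0 := by
    intro i y
    have := hkk (0, Pi.single i (Additive.ofMul y))
    have h1 : Φ (0, Pi.single i (Additive.ofMul y)) = sym S (a i) y := by
      show sym S w0 (0 : Additive S.G).toMul +
        ∑ j, sym S (a j) ((Pi.single i (Additive.ofMul y) : Fin n → Additive S.G) j).toMul = _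
      rw [toMul_zero, sym_one_right, zero_add, Finset.sum_eq_single i]
      · rw [Pi.single_eq_same]; rfl
      · intro j _ hj
        rw [Pi.single_eq_of_ne hj, toMul_zero, sym_one_right]
      · intro hi
        exact absurd (Finset.mem_univ i) hi
    rw [h1] at this
    rw [this]
    show f (0 : Additive S.G).toMul = 0
    rw [toMul_zero, hf1]
  have hk3 : ∀ (I : Finset (Fin n)) (y : S.G), k (sym S (∏ i ∈ I, a i) y) = 0 := by
    intro I y
    rw [sym_prod_left, map_sum]
    exact Finset.sum_eq_zero fun i _ => hk2 i y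
  refine ⟨fun g g' => k (sym S g g'), ⟨?_, ?_, ?_⟩, ?_⟩
  · intro g _ g' _ g''
    show k (sym S (g * g') g'') = k (sym S g g'') + k (sym S g' g'')
    rw [← map_add, ← sym_mul_left]
  · intro g _ g' g''
    show k (sym S g (g' * g'')) = k (sym S g g') + k (sym S g g'')
    rw [← map_add, ← sym_mul_right]
  · intro g _ g' hg
    show k (sym S g g') = 0
    rw [sym_zero hg, map_zero]
  · intro w hw g
    show k (sym S w g) = l w * f g
    by_cases hlw : l w = 0
    · obtain ⟨I, hI⟩ := hgen w hw hlw
      rw [hlw, zero_mul, hI]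
      exact hk3 I g
    · have hlw' : l w = 1 := by
        have : ∀ z : ZMod 2, z ≠ 0 → z = 1 := by decide
        exact this _ hlw
      have hlw3 : l (w * w0) = 0 := by
        rw [hl, hlw', hlw1]
        exact CharTwo.add_self_eq_zero _
      obtain ⟨I, hI⟩ := hgen (w * w0) (W.mul_mem hw hw0) hlw3
      have h3 : (∏ i ∈ I, a i) * w0 = w := by
        rw [← hI, mul_assoc, hS.exp2, mul_one]
      rw [hlw', one_mul, ← h3, sym_mul_left, map_add, hk3, hk1, zero_add]

theorem extend_of_slots {S : QData} (hS : IsQuat S) (hfin : Finite S.G)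
    (h : ∀ n, SlotsAt S n) : ProductSymbolsExtend S := by
  classical
  intro W l f hl hf hχ
  obtain ⟨-, -, hχ0⟩ := hχ
  by_cases hl0 : ∀ w ∈ W, l w = 0
  · refine ⟨fun _ _ => 0, ⟨?_, ?_, ?_⟩, ?_⟩
    · intros; simp
    · intros; simp
    · intros; rfl
    · intro w hw b
      rw [hl0 w hw, zero_mul]
  push Not at hl0
  obtain ⟨w0, hw0, hlw0⟩ := hl0
  have hlw1 : l w0 = 1 := by
    have : ∀ z : ZMod 2, z ≠ 0 → z = 1 := by decide
    exact this _ hlw0
  let W0 : Type := {w : S.G // w ∈ W ∧ l w = 0}
  have : Finite W0 := inferInstanceAs (Finite {w : S.G // w ∈ W ∧ l w = 0})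
  have : Fintype W0 := Fintype.ofFinite _
  let e : Fin (Fintype.card W0) ≃ W0 := (Fintype.equivFin W0).symm
  refine extend_core hS W l f hl hf hχ0 hw0 hlw1 (Fintype.card W0) (h _) (fun i => (e i).1)
    (fun i => (e i).2) ?_
  intro w hw hlw
  obtain ⟨i, hi⟩ := e.surjective ⟨w, hw, hlw⟩
  exact ⟨{i}, by rw [Finset.prod_singleton, hi]⟩

end Pool.Agent.Q327.ET
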